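import Pool.Agent.TH376.GE.Defs

set_option autoImplicit false

open FreeAlgebra Matrix

namespace Pool.Agent.TH542.GE

open Pool.Agent.TH376.GE

variable {K : Type} [Field K] {n : ℕ}

/-- matrices reading off the coefficient of the word `u` -/
def Yw (F : Type) [Field F] (u : List (Fin n)) (j : Fin n) :
    Matrix (Fin (u.length + 1)) (Fin (u.length + 1)) F :=
  fun p s => if u.drop p = j :: u.drop s then 1 else 0

theorem drop_inj (u : List (Fin n)) (p s : Fin (u.length + 1)) (h : u.drop p = u.drop s) : p = s := by
  have h1 := congrArg List.length h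
  rw [List.length_drop, List.length_drop] at h1
  apply Fin.ext
  have := p.2
  have := s.2
  omega

theorem prod_Yw (F : Type) [Field F] (u w : List (Fin n)) (p : Fin (u.length + 1)) :
    ((w.map (Yw F u)).prod) p (Fin.last _) = if u.drop p = w then 1 else 0 := by
  induction w generalizing p with
  | nil =>
    rw [List.map_nil, List.prod_nil, Matrix.one_apply]
    congr 1
    rw [eq_iff_iff, List.drop_eq_nil_iff]
    constructor
    · intro h
      rw [h]
      simp
    · intro h
      apply Fin.ext
      have := p.2
      rw [Fin.val_last]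
      omega
  | cons j w ih =>
    rw [List.map_cons, List.prod_cons, Matrix.mul_apply]
    simp only [ih]
    by_cases h : u.drop p = j :: w
    · rw [if_pos h]
      have hp : (p : ℕ) < u.length := by
        by_contra hcon
        rw [List.drop_eq_nil_of_le (not_lt.1 hcon)] at h
        simp at h
      have hw : u.drop (p + 1) = w := by
        have h2 : (u.drop p).tail = w := by rw [h]; rfl
        rw [List.tail_drop] at h2
        exact h2
      rw [Finset.sum_eq_single (⟨(p : ℕ) + 1, by omega⟩ : Fin (u.length + 1))]
      · unfold Yw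
        rw [if_pos (by rw [h, hw]), if_pos hw, mul_one]
      · intro s _ hs
        rw [if_neg, mul_zero]
        intro h3
        apply hs
        apply drop_inj u
        rw [h3]
        exact hw.symm
      · intro h3
        exact absurd (Finset.mem_univ _) h3
    · rw [if_neg h]
      refine Finset.sum_eq_zero fun s _ => ?_
      by_cases h2 : u.drop s = w
      · unfold Yw
        rw [if_neg, zero_mul]
        rw [h2]
        exact h
      · rw [if_neg h2, mul_zero]

theorem lift_eq (F : Type) [Field F] [Algebra K F] {N : ℕ} (Y : Fin n → Matrix (Fin N) (Fin N) F)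
    (a : FreeAlgebra K (Fin n)) :
    FreeAlgebra.lift K Y a =
      (FreeAlgebra.equivMonoidAlgebraFreeMonoid (R := K) a).coeff.sum
        fun w c => c • (FreeMonoid.lift Y w) := by
  have h : FreeAlgebra.lift K Y =
      (MonoidAlgebra.lift K (Matrix (Fin N) (Fin N) F) (FreeMonoid (Fin n)) (FreeMonoid.lift Y)).comp
        (FreeAlgebra.equivMonoidAlgebraFreeMonoid (R := K) (X := Fin n)).toAlgHom := by
    apply FreeAlgebra.hom_ext
    funext i
    simp [FreeAlgebra.equivMonoidAlgebraFreeMonoid]
  rw [h]
  exact MonoidAlgebra.lift_apply _ _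

theorem coeff_eq (F : Type) [Field F] [Algebra K F] (u : List (Fin n))
    (a : FreeAlgebra K (Fin n)) :
    (FreeAlgebra.lift K (Yw F u) a) 0 (Fin.last _) =
      algebraMap K F ((FreeAlgebra.equivMonoidAlgebraFreeMonoid (R := K) a).coeff
        (FreeMonoid.ofList u)) := by
  classical
  rw [lift_eq]
  unfold Finsupp.sum
  rw [Matrix.sum_apply]
  have h1 : ∀ w : FreeMonoid (Fin n),
      ((FreeAlgebra.equivMonoidAlgebraFreeMonoid (R := K) a).coeff w •
        (FreeMonoid.lift (Yw F u) w)) 0 (Fin.last _) =
      if w = FreeMonoid.ofList u then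
        algebraMap K F ((FreeAlgebra.equivMonoidAlgebraFreeMonoid (R := K) a).coeff w) else 0 := by
    intro w
    rw [Matrix.smul_apply, FreeMonoid.lift_apply, prod_Yw]
    simp only [Fin.val_zero, List.drop_zero]
    by_cases h : u = FreeMonoid.toList w
    · rw [if_pos h, if_pos (by rw [h]; rfl), Algebra.smul_def, mul_one]
    · rw [if_neg h, if_neg (fun h2 => h (by rw [h2]; rfl)), smul_zero]
  rw [Finset.sum_congr rfl fun w _ => h1 w, Finset.sum_ite_eq']
  split_ifs with h
  · rfl
  · rw [Finsupp.notMem_support_iff.1 h, map_zero]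

theorem injective_of_onto (φ : FreeAlgebra K (Fin n) →ₐ[K] FreeAlgebra K (Fin n))
    (hO : Onto (fun i => φ (ι K i))) : Function.Injective φ := by
  rw [injective_iff_map_eq_zero]
  intro a ha
  by_contra hne
  have h1 : (FreeAlgebra.equivMonoidAlgebraFreeMonoid (R := K) a).coeff ≠ 0 := by
    intro h
    apply hne
    have h2 : FreeAlgebra.equivMonoidAlgebraFreeMonoid (R := K) a = 0 := by
      ext w
      rw [h]
      rfl
    exact (EmbeddingLike.map_eq_zero_iff).1 h2
  obtain ⟨w, hw⟩ := Finsupp.ne_iff.1 h1
  obtain ⟨X, hX⟩ := hO (AlgebraicClosure K) _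
    (Yw (AlgebraicClosure K) (FreeMonoid.toList w))
  have h3 : FreeAlgebra.lift K (Yw (AlgebraicClosure K) (FreeMonoid.toList w)) =
      (FreeAlgebra.lift K X).comp φ := by
    apply FreeAlgebra.hom_ext
    funext i
    simp only [Function.comp_apply, FreeAlgebra.lift_ι_apply, AlgHom.comp_apply]
    exact (hX i).symm
  have h4 := coeff_eq (AlgebraicClosure K) (FreeMonoid.toList w) a
  rw [h3, AlgHom.comp_apply, ha, map_zero, Matrix.zero_apply] at h4
  apply hw
  have h5 := (map_eq_zero (algebraMap K (AlgebraicClosure K))).1 h4.symm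
  exact h5

end Pool.Agent.TH542.GE
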